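import Pool.Agent.Q150.HypB

/-!
# Balanced versus group-balanced configurations in hyperbolic space

For every `n ≥ 2` there is a discrete balanced configuration in hyperbolic `n`-space which is not
group-balanced.
-/

namespace Pool.Agent.Results.MP_906af0_co.BalancedNotGroup

open Q150.HypBal

/-- For every `n ≥ 2` there is a discrete balanced configuration `C` in hyperbolic `n`-space which
is not group-balanced; moreover, for some point `p` of `C`, all the symmetries of `C` which fix `p`
fix a second point `q` of the space. -/
theorem result (n : ℕ) (hn : 2 ≤ n) : ∃ C : Set (HypSpace n),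
    IsDiscreteConf C ∧ IsBalanced C ∧ ¬ IsGroupBalanced C ∧
      ∃ p ∈ C, ∃ q, q ≠ p ∧ ∀ g : HypSpace n ≃ HypSpace n, IsSymmetry C g → g p = p → g q = q :=
  main n hn

end Pool.Agent.Results.MP_906af0_co.BalancedNotGroup
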